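import Pool.Agent.H16.FinSylow

set_option autoImplicit false

namespace Pool.Agent.Results.MP_055c61_al.Quot

/-- For a group `G` of finitary permutations, a normal subgroup `N` and a transitive Sylow
`p`-subgroup `S`, the image `SN/N` is a Sylow `p`-subgroup of `G/N`. -/
theorem result (p : ℕ) (hp : p.Prime) (Ω : Type) (G : Subgroup (Equiv.Perm Ω))
    (hfin : ∀ g ∈ G, {x : Ω | g x ≠ x}.Finite) (N : Subgroup G) [N.Normal] (S : Sylow p G)
    (hS : ∀ x y : Ω, ∃ s ∈ S, (s : Equiv.Perm Ω) x = y) :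
    ∃ Q : Sylow p (G ⧸ N), (Q : Subgroup (G ⧸ N)) = (S : Subgroup G).map (QuotientGroup.mk' N) :=
  (Pool.Agent.H16.FinSylow.both p hp Ω G hfin N S hS).2

end Pool.Agent.Results.MP_055c61_al.Quot
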